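import Mathlib

set_option autoImplicit false

/-!
# Orientation and convex position in the plane

Points of the plane are pairs of reals, ordered lexicographically through `toLex`.
`orient a b c` is twice the signed area of the triangle `a b c`.
-/

namespace Pool.Agent.H690CV

/-- Twice the signed area of the triangle `a b c`. -/
def orient (a b c : ℝ × ℝ) : ℝ :=
  (b.1 - a.1) * (c.2 - a.2) - (b.2 - a.2) * (c.1 - a.1)

theorem orient_cyc (a b c : ℝ × ℝ) : orient a b c = orient b c a := by
  unfold orient; ring

theorem orient_self (a b : ℝ × ℝ) : orient a b b = 0 := by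
  unfold orient; ring

theorem orient_left (a b : ℝ × ℝ) : orient a b a = 0 := by
  unfold orient; ring

/-- Three distinct points with orientation zero are collinear. -/
theorem collinear_of_orient {a b c : ℝ × ℝ} (hab : a ≠ b) (h : orient a b c = 0) :
    Collinear ℝ ({a, b, c} : Set (ℝ × ℝ)) := by
  rw [collinear_iff_of_mem (p₀ := a) (by simp)]
  refine ⟨b - a, ?_⟩
  unfold orient at h
  intro p hp
  simp only [Set.mem_insert_iff, Set.mem_singleton_iff] at hp
  rcases hp with rfl | rfl | rfl
  · exact ⟨0, by simp⟩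
  · exact ⟨1, by simp⟩
  · by_cases h1 : b.1 - a.1 = 0
    · have h2 : b.2 - a.2 ≠ 0 := by
        intro h2
        apply hab
        apply Prod.ext <;> linarith
      refine ⟨(p.2 - a.2) / (b.2 - a.2), ?_⟩
      have h3 : p.1 = a.1 := by
        rw [h1] at h
        have : (b.2 - a.2) * (p.1 - a.1) = 0 := by linarith
        rcases mul_eq_zero.mp this with h4 | h4
        · exact absurd h4 h2
        · linarith
      apply Prod.ext
      · simp [h1, h3]
      · simp only [vadd_eq_add, Prod.snd_add, Prod.smul_snd, Prod.snd_sub, smul_eq_mul]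
        field_simp
        ring
    · refine ⟨(p.1 - a.1) / (b.1 - a.1), ?_⟩
      apply Prod.ext
      · simp only [vadd_eq_add, Prod.fst_add, Prod.smul_fst, Prod.fst_sub, smul_eq_mul]
        field_simp
        ring
      · simp only [vadd_eq_add, Prod.snd_add, Prod.smul_snd, Prod.snd_sub, smul_eq_mul]
        field_simp
        linarith

/-- lexicographic positivity of the difference vector -/
theorem lex_lt_iff (a b : ℝ × ℝ) :
    toLex a < toLex b ↔ a.1 < b.1 ∨ (a.1 = b.1 ∧ a.2 < b.2) := by
  rw [Prod.Lex.toLex_lt_toLex]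

/-- Transitivity of the angular order in a half-plane. -/
theorem det_trans {u1 u2 v1 v2 w1 w2 : ℝ} (hu : 0 < u1 ∨ (u1 = 0 ∧ 0 < u2))
    (hv : 0 < v1 ∨ (v1 = 0 ∧ 0 < v2)) (hw : 0 < w1 ∨ (w1 = 0 ∧ 0 < w2))
    (h1 : 0 < u1 * v2 - u2 * v1) (h2 : 0 < v1 * w2 - v2 * w1) : 0 < u1 * w2 - u2 * w1 := by
  have hw0 : 0 ≤ w1 := by
    rcases hw with h | h
    · exact h.le
    · exact h.1.symm.le
  have hv0 : 0 < v1 := by
    rcases hv with h | ⟨h, h'⟩
    · exact h
    · exfalso
      rw [h] at h2
      nlinarith [mul_nonneg h'.le hw0]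
  have hu0 : 0 < u1 := by
    rcases hu with h | ⟨h, h'⟩
    · exact h
    · exfalso
      rw [h] at h1
      nlinarith [mul_pos h' hv0]
  have key : v1 * (u1 * w2 - u2 * w1) = w1 * (u1 * v2 - u2 * v1) + u1 * (v1 * w2 - v2 * w1) := by
    ring
  have hpos : 0 < v1 * (u1 * w2 - u2 * w1) := by
    rw [key]
    have := mul_nonneg hw0 h1.le
    have := mul_pos hu0 h2
    linarith
  exact (mul_pos_iff_of_pos_left hv0).mp hpos

theorem diff_pos {a b : ℝ × ℝ} (h : toLex a < toLex b) :
    0 < b.1 - a.1 ∨ (b.1 - a.1 = 0 ∧ 0 < b.2 - a.2) := by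
  rcases (lex_lt_iff a b).mp h with h | ⟨h, h'⟩
  · exact Or.inl (by linarith)
  · exact Or.inr ⟨by linarith, by linarith⟩

/-- The sectors at `x`: seen from `x`, the signs are nested. -/
theorem orient_nested {t x s s' : ℝ × ℝ} (htx : toLex t < toLex x) (hxs : toLex x < toLex s)
    (hxs' : toLex x < toLex s') (h : 0 < orient x s s') (h1 : 0 < orient t x s) :
    0 < orient t x s' := by
  have h1' : 0 < (x.1 - t.1) * (s.2 - x.2) - (x.2 - t.2) * (s.1 - x.1) := by
    have : orient t x s = (x.1 - t.1) * (s.2 - x.2) - (x.2 - t.2) * (s.1 - x.1) := by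
      unfold orient; ring
    rw [← this]; exact h1
  have h2' : 0 < (s.1 - x.1) * (s'.2 - x.2) - (s.2 - x.2) * (s'.1 - x.1) := h
  have := det_trans (diff_pos htx) (diff_pos hxs) (diff_pos hxs') h1' h2'
  have e : orient t x s' = (x.1 - t.1) * (s'.2 - x.2) - (x.2 - t.2) * (s'.1 - x.1) := by
    unfold orient; ring
  rw [e]; exact this

/-- Transitivity along a sequence: positive version. -/
theorem orient_trans {a b c d : ℝ × ℝ} (hab : toLex a < toLex b) (hbc : toLex b < toLex c)
    (hcd : toLex c < toLex d) (h1 : 0 < orient a b c) (h2 : 0 < orient b c d) :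
    0 < orient a c d := by
  have h1' : 0 < (b.1 - a.1) * (c.2 - b.2) - (b.2 - a.2) * (c.1 - b.1) := by
    have : orient a b c = (b.1 - a.1) * (c.2 - b.2) - (b.2 - a.2) * (c.1 - b.1) := by
      unfold orient; ring
    rw [← this]; exact h1
  have h2' : 0 < (c.1 - b.1) * (d.2 - c.2) - (c.2 - b.2) * (d.1 - c.1) := by
    have : orient b c d = (c.1 - b.1) * (d.2 - c.2) - (c.2 - b.2) * (d.1 - c.1) := by
      unfold orient; ring
    rw [← this]; exact h2
  have h3 := det_trans (diff_pos hab) (diff_pos hbc) (diff_pos hcd) h1' h2'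
  have e : orient a c d = ((b.1 - a.1) * (d.2 - c.2) - (b.2 - a.2) * (d.1 - c.1))
      + ((c.1 - b.1) * (d.2 - c.2) - (c.2 - b.2) * (d.1 - c.1)) := by
    unfold orient; ring
  rw [e]; linarith

/-- the mirror image in the horizontal axis -/
def mir (a : ℝ × ℝ) : ℝ × ℝ := (a.1, - a.2)

theorem orient_mir (a b c : ℝ × ℝ) : orient (mir a) (mir b) (mir c) = - orient a b c := by
  unfold orient mir; ring

/-- Angular transitivity with both signs, the negative one. -/
theorem det_trans_neg {u1 u2 v1 v2 w1 w2 : ℝ} (hu : 0 < u1 ∨ (u1 = 0 ∧ 0 < u2))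
    (hv : 0 < v1 ∨ (v1 = 0 ∧ 0 < v2)) (hw : 0 < w1 ∨ (w1 = 0 ∧ 0 < w2))
    (h1 : 0 < v1 * u2 - v2 * u1) (h2 : 0 < w1 * v2 - w2 * v1) : 0 < w1 * u2 - w2 * u1 :=
  det_trans hw hv hu h2 h1

/-- A half-plane criterion for not lying in the convex hull. -/
theorem notMem_hull {K : Set (ℝ × ℝ)} {a : ℝ × ℝ} (A B C : ℝ)
    (hK : ∀ x ∈ K, 0 < A * x.1 + B * x.2 + C) (ha : A * a.1 + B * a.2 + C ≤ 0) :
    a ∉ convexHull ℝ K := by
  intro hmem
  have hconv : Convex ℝ {x : ℝ × ℝ | 0 < A * x.1 + B * x.2 + C} := by
    rw [convex_iff_forall_pos]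
    intro x hx y hy s t hs ht hst
    simp only [Set.mem_ofPred_eq] at hx hy ⊢
    simp only [Prod.fst_add, Prod.smul_fst, smul_eq_mul, Prod.snd_add, Prod.smul_snd]
    have h1 := mul_pos hs hx
    have h2 := mul_pos ht hy
    have h3 : A * (s * x.1 + t * y.1) + B * (s * x.2 + t * y.2) + C
        = s * (A * x.1 + B * x.2 + C) + t * (A * y.1 + B * y.2 + C) := by
      have : C = (s + t) * C := by rw [hst]; ring
      nlinarith [this]
    rw [h3]; linarith
  have hsub : convexHull ℝ K ⊆ {x : ℝ × ℝ | 0 < A * x.1 + B * x.2 + C} :=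
    convexHull_min (fun x hx => hK x hx) hconv
  have := hsub hmem
  simp only [Set.mem_ofPred_eq] at this
  linarith

/-- If `a` has two `neighbours` `b`, `c` in `K` such that all the other points lie strictly on
one side of the lines `b a` and `a c`, then `a` is not in the hull of the others. -/
theorem vertex_of_nbrs {K : Finset (ℝ × ℝ)} {a b c : ℝ × ℝ} {σ : ℝ} (hbc : b ≠ c)
    (h1 : ∀ x ∈ K, x ≠ a → x ≠ b → 0 < σ * orient b a x)
    (h2 : ∀ x ∈ K, x ≠ a → x ≠ c → 0 < σ * orient a c x) :
    a ∉ convexHull ℝ ((K : Set (ℝ × ℝ)) \ {a}) := by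
  apply notMem_hull
    (σ * (-(a.2 - b.2) - (c.2 - a.2))) (σ * ((a.1 - b.1) + (c.1 - a.1)))
    (σ * (-(a.1 - b.1) * b.2 + (a.2 - b.2) * b.1 - (c.1 - a.1) * a.2 + (c.2 - a.2) * a.1))
  · intro x hx
    have hxK : x ∈ K := by simpa using hx.1
    have hxa : x ≠ a := by simpa using hx.2
    have e : σ * (-(a.2 - b.2) - (c.2 - a.2)) * x.1 + σ * ((a.1 - b.1) + (c.1 - a.1)) * x.2
        + σ * (-(a.1 - b.1) * b.2 + (a.2 - b.2) * b.1 - (c.1 - a.1) * a.2 + (c.2 - a.2) * a.1)
        = σ * orient b a x + σ * orient a c x := by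
      unfold orient; ring
    rw [e]
    by_cases hxb : x = b
    · have h3 : σ * orient b a x = 0 := by rw [hxb, orient_left]; ring
      have h4 := h2 x hxK hxa (by rw [hxb]; exact hbc)
      linarith
    · by_cases hxc : x = c
      · have h3 : σ * orient a c x = 0 := by rw [hxc, orient_self]; ring
        have h4 := h1 x hxK hxa hxb
        linarith
      · have h3 := h1 x hxK hxa hxb
        have h4 := h2 x hxK hxa hxc
        linarith
  · have e : σ * (-(a.2 - b.2) - (c.2 - a.2)) * a.1 + σ * ((a.1 - b.1) + (c.1 - a.1)) * a.2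
        + σ * (-(a.1 - b.1) * b.2 + (a.2 - b.2) * b.1 - (c.1 - a.1) * a.2 + (c.2 - a.2) * a.1)
        = 0 := by ring
    rw [e]

/-- A finite set all of whose lexicographically ordered triples have the same orientation is in
convex position. -/
theorem convPos_of_orient {K : Finset (ℝ × ℝ)} {σ : ℝ} (hcard : 3 ≤ K.card)
    (h : ∀ x ∈ K, ∀ y ∈ K, ∀ z ∈ K, toLex x < toLex y → toLex y < toLex z →
      0 < σ * orient x y z) :
    ∀ a ∈ K, a ∉ convexHull ℝ ((K : Set (ℝ × ℝ)) \ {a}) := by
  classical
  intro a ha
  have hcmp : ∀ x y : ℝ × ℝ, x ≠ y → toLex x < toLex y ∨ toLex y < toLex x := by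
    intro x y hxy
    exact lt_or_gt_of_ne (fun e => hxy (toLex.injective e))
  set Lo := K.filter (fun x => toLex x < toLex a) with hLo
  set Hi := K.filter (fun x => toLex a < toLex x) with hHi
  by_cases hL : Lo.Nonempty
  · obtain ⟨b, hb, hbmax⟩ := Finset.exists_max_image Lo (fun x => toLex x) hL
    have hbK : b ∈ K := (Finset.mem_filter.mp hb).1
    have hba : toLex b < toLex a := (Finset.mem_filter.mp hb).2
    by_cases hH : Hi.Nonempty
    · obtain ⟨c, hc, hcmin⟩ := Finset.exists_min_image Hi (fun x => toLex x) hH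
      have hcK : c ∈ K := (Finset.mem_filter.mp hc).1
      have hac : toLex a < toLex c := (Finset.mem_filter.mp hc).2
      apply vertex_of_nbrs (b := b) (c := c) (σ := σ)
      · intro e; rw [e] at hba; exact lt_asymm hba hac
      · intro x hx hxa hxb
        rcases hcmp x a hxa with hlt | hgt
        · have hxL : x ∈ Lo := Finset.mem_filter.mpr ⟨hx, hlt⟩
          have hle := hbmax x hxL
          have hlt' : toLex x < toLex b := lt_of_le_of_ne hle (fun e => hxb (toLex.injective e))
          have := h x hx b hbK a ha hlt' hba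
          rwa [orient_cyc x b a] at this
        · exact h b hbK a ha x hx hba hgt
      · intro x hx hxa hxc
        rcases hcmp x a hxa with hlt | hgt
        · have := h x hx a ha c hcK hlt hac
          rwa [orient_cyc x a c] at this
        · have hxH : x ∈ Hi := Finset.mem_filter.mpr ⟨hx, hgt⟩
          have hle := hcmin x hxH
          have hlt' : toLex c < toLex x :=
            lt_of_le_of_ne hle (fun e => hxc (toLex.injective e).symm)
          exact h a ha c hcK x hx hac hlt'
    · -- `a` is the maximum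
      have hall : ∀ x ∈ K, x ≠ a → toLex x < toLex a := by
        intro x hx hxa
        rcases hcmp x a hxa with hlt | hgt
        · exact hlt
        · exact absurd ⟨x, Finset.mem_filter.mpr ⟨hx, hgt⟩⟩ hH
      obtain ⟨e, he, hemin⟩ := Finset.exists_min_image Lo (fun x => toLex x) hL
      have heK : e ∈ K := (Finset.mem_filter.mp he).1
      have hea : toLex e < toLex a := (Finset.mem_filter.mp he).2
      have hbe : b ≠ e := by
        intro hbe
        have hsub : K ⊆ {a, b} := by
          intro x hx
          by_cases hxa : x = a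
          · simp [hxa]
          · have hxL : x ∈ Lo := Finset.mem_filter.mpr ⟨hx, hall x hx hxa⟩
            have h1 := hbmax x hxL
            have h2 := hemin x hxL
            rw [← hbe] at h2
            have : x = b := toLex.injective (le_antisymm h1 h2)
            simp [this]
        have := Finset.card_le_card hsub
        have := Finset.card_le_two (a := a) (b := b)
        omega
      apply vertex_of_nbrs (b := b) (c := e) (σ := σ) hbe
      · intro x hx hxa hxb
        have hlt := hall x hx hxa
        have hxL : x ∈ Lo := Finset.mem_filter.mpr ⟨hx, hlt⟩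
        have hle := hbmax x hxL
        have hlt' : toLex x < toLex b := lt_of_le_of_ne hle (fun e => hxb (toLex.injective e))
        have := h x hx b hbK a ha hlt' hba
        rwa [orient_cyc x b a] at this
      · intro x hx hxa hxe
        have hlt := hall x hx hxa
        have hxL : x ∈ Lo := Finset.mem_filter.mpr ⟨hx, hlt⟩
        have hle := hemin x hxL
        have hlt' : toLex e < toLex x :=
          lt_of_le_of_ne hle (fun e' => hxe (toLex.injective e').symm)
        have := h e heK x hx a ha hlt' hlt
        rwa [orient_cyc e x a, orient_cyc x a e] at this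
  · -- `a` is the minimum
    have hall : ∀ x ∈ K, x ≠ a → toLex a < toLex x := by
      intro x hx hxa
      rcases hcmp x a hxa with hlt | hgt
      · exact absurd ⟨x, Finset.mem_filter.mpr ⟨hx, hlt⟩⟩ hL
      · exact hgt
    have hH : Hi.Nonempty := by
      have : ∃ x ∈ K, x ≠ a := by
        by_contra hcon
        push Not at hcon
        have hsub : K ⊆ {a} := by
          intro x hx
          simp [hcon x hx]
        have := Finset.card_le_card hsub
        simp at this
        omega
      obtain ⟨x, hx, hxa⟩ := this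
      exact ⟨x, Finset.mem_filter.mpr ⟨hx, hall x hx hxa⟩⟩
    obtain ⟨c, hc, hcmin⟩ := Finset.exists_min_image Hi (fun x => toLex x) hH
    have hcK : c ∈ K := (Finset.mem_filter.mp hc).1
    have hac : toLex a < toLex c := (Finset.mem_filter.mp hc).2
    obtain ⟨d, hd, hdmax⟩ := Finset.exists_max_image Hi (fun x => toLex x) hH
    have hdK : d ∈ K := (Finset.mem_filter.mp hd).1
    have had : toLex a < toLex d := (Finset.mem_filter.mp hd).2
    have hdc : d ≠ c := by
      intro hdc
      have hsub : K ⊆ {a, c} := by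
        intro x hx
        by_cases hxa : x = a
        · simp [hxa]
        · have hxL : x ∈ Hi := Finset.mem_filter.mpr ⟨hx, hall x hx hxa⟩
          have h1 := hdmax x hxL
          have h2 := hcmin x hxL
          rw [hdc] at h1
          have : x = c := toLex.injective (le_antisymm h1 h2)
          simp [this]
      have := Finset.card_le_card hsub
      have := Finset.card_le_two (a := a) (b := c)
      omega
    apply vertex_of_nbrs (b := d) (c := c) (σ := σ) hdc
    · intro x hx hxa hxd
      have hgt := hall x hx hxa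
      have hxH : x ∈ Hi := Finset.mem_filter.mpr ⟨hx, hgt⟩
      have hle := hdmax x hxH
      have hlt' : toLex x < toLex d := lt_of_le_of_ne hle (fun e => hxd (toLex.injective e))
      have := h a ha x hx d hdK hgt hlt'
      rwa [orient_cyc a x d, orient_cyc x d a] at this
    · intro x hx hxa hxc
      have hgt := hall x hx hxa
      have hxH : x ∈ Hi := Finset.mem_filter.mpr ⟨hx, hgt⟩
      have hle := hcmin x hxH
      have hlt' : toLex c < toLex x :=
        lt_of_le_of_ne hle (fun e => hxc (toLex.injective e).symm)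
      exact h a ha c hcK x hx hac hlt'

end Pool.Agent.H690CV
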