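import Pool.Agent.H690CV.Basic

set_option autoImplicit false

/-!
# Growing a homogeneous sequence

`Hom χ P T S`: the points of `T` precede those of `S`, every `t ∈ T` sees all later points of
`T ∪ S` in one colour, and every pair of `T` sees all later points on one side.
-/

namespace Pool.Agent.H690CV

/-- Homogeneity of `T` towards the later points of `T` and all of `S`. -/
structure Hom (χ : Sym2 (ℝ × ℝ) → Bool) (P T S : Finset (ℝ × ℝ)) : Prop where
  TP : T ⊆ P
  SP : S ⊆ P
  lt : ∀ t ∈ T, ∀ s ∈ S, toLex t < toLex s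
  col : ∀ t ∈ T, ∃ b : Bool, (∀ s ∈ S, χ s(t, s) = b) ∧
    (∀ t' ∈ T, toLex t < toLex t' → χ s(t, t') = b)
  ori : ∀ t ∈ T, ∀ t' ∈ T, toLex t < toLex t' → ∃ σ : ℝ, (σ = 1 ∨ σ = -1) ∧
    (∀ s ∈ S, 0 < σ * orient t t' s) ∧
    (∀ t'' ∈ T, toLex t' < toLex t'' → 0 < σ * orient t t' t'')

/-- nonvanishing orientation of triples of `P` -/
def Gen (P : Finset (ℝ × ℝ)) : Prop :=
  ∀ a ∈ P, ∀ b ∈ P, ∀ c ∈ P, a ≠ b → a ≠ c → b ≠ c → orient a b c ≠ 0

theorem ne_of_lex {a b : ℝ × ℝ} (h : toLex a < toLex b) : a ≠ b := by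
  intro e; rw [e] at h; exact lt_irrefl _ h

/-- One step: from `S` of size more than `2 (|T| + 1) m` we can move one point of `S` to `T` and
keep more than `m - 1` points. -/
theorem Hom.step {χ : Sym2 (ℝ × ℝ) → Bool} {P T S : Finset (ℝ × ℝ)} (hG : Gen P)
    (hH : Hom χ P T S) {m : ℕ} (hm : 2 * (T.card + 1) * m < S.card) :
    ∃ T' S', Hom χ P T' S' ∧ T'.card = T.card + 1 ∧ m ≤ S'.card := by
  classical
  have hSne : S.Nonempty := Finset.card_pos.mp (by omega)
  obtain ⟨x, hxS, hxmin⟩ := Finset.exists_min_image S (fun y => toLex y) hSne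
  have hxlt : ∀ s ∈ S.erase x, toLex x < toLex s := by
    intro s hs
    have h1 := hxmin s (Finset.mem_of_mem_erase hs)
    exact lt_of_le_of_ne h1 (fun e => (Finset.ne_of_mem_erase hs) (toLex.injective e).symm)
  have hxT : x ∉ T := fun h => lt_irrefl _ (hH.lt x h x hxS)
  have hxP : x ∈ P := hH.SP hxS
  -- the sets seen on the positive side
  let A : ℝ × ℝ → Finset (ℝ × ℝ) := fun s => T.filter (fun t => 0 < orient t x s)
  have hnest : ∀ s ∈ S.erase x, ∀ s' ∈ S.erase x, A s ⊆ A s' ∨ A s' ⊆ A s := by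
    intro s hs s' hs'
    by_cases hss : s = s'
    · left; rw [hss]
    · have hne : orient x s s' ≠ 0 := hG x hxP s (hH.SP (Finset.mem_of_mem_erase hs)) s'
        (hH.SP (Finset.mem_of_mem_erase hs')) (ne_of_lex (hxlt s hs)) (ne_of_lex (hxlt s' hs')) hss
      rcases lt_or_gt_of_ne hne with hlt | hgt
      · right
        intro t ht
        have ht' := Finset.mem_filter.mp ht
        refine Finset.mem_filter.mpr ⟨ht'.1, ?_⟩
        have h0 : 0 < orient x s' s := by
          have : orient x s' s = - orient x s s' := by unfold orient; ring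
          rw [this]; linarith
        exact orient_nested (hH.lt t ht'.1 x hxS) (hxlt s' hs') (hxlt s hs) h0 ht'.2
      · left
        intro t ht
        have ht' := Finset.mem_filter.mp ht
        refine Finset.mem_filter.mpr ⟨ht'.1, ?_⟩
        exact orient_nested (hH.lt t ht'.1 x hxS) (hxlt s hs) (hxlt s' hs') hgt ht'.2
  -- the pattern map
  let f : ℝ × ℝ → Bool × ℕ := fun s => (χ s(x, s), (A s).card)
  let B : Finset (Bool × ℕ) := Finset.univ ×ˢ Finset.range (T.card + 1)
  have hmaps : ∀ s ∈ S.erase x, f s ∈ B := by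
    intro s _
    refine Finset.mem_product.mpr ⟨Finset.mem_univ _, Finset.mem_range.mpr ?_⟩
    exact Nat.lt_succ_of_le (Finset.card_le_card (Finset.filter_subset _ _))
  have hBcard : B.card = 2 * (T.card + 1) := by
    simp [B, Finset.card_product]
  have hBne : B.Nonempty := Finset.card_pos.mp (by omega)
  have hcard : B.card * m ≤ (S.erase x).card := by
    rw [Finset.card_erase_of_mem hxS, hBcard]
    omega
  obtain ⟨pat, _, hpat⟩ := Finset.exists_le_card_fiber_of_mul_le_card_of_maps_to hmaps hBne hcard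
  set S' := (S.erase x).filter (fun s => f s = pat) with hS'
  have hS'sub : S' ⊆ S.erase x := Finset.filter_subset _ _
  have hAeq : ∀ s ∈ S', ∀ s' ∈ S', A s = A s' := by
    intro s hs s' hs'
    have h1 : f s = pat := (Finset.mem_filter.mp hs).2
    have h2 : f s' = pat := (Finset.mem_filter.mp hs').2
    have h3 : (A s).card = (A s').card := by
      have : f s = f s' := by rw [h1, h2]
      exact congrArg Prod.snd this
    rcases hnest s (hS'sub hs) s' (hS'sub hs') with h | h
    · exact Finset.eq_of_subset_of_card_le h (by omega)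
    · exact (Finset.eq_of_subset_of_card_le h (by omega)).symm
  refine ⟨insert x T, S', ?_, Finset.card_insert_of_notMem hxT, hpat⟩
  refine ⟨?_, ?_, ?_, ?_, ?_⟩
  · intro t ht
    rcases Finset.mem_insert.mp ht with rfl | h
    · exact hxP
    · exact hH.TP h
  · intro s hs
    exact hH.SP (Finset.mem_of_mem_erase (hS'sub hs))
  · intro t ht s hs
    rcases Finset.mem_insert.mp ht with rfl | h
    · exact hxlt s (hS'sub hs)
    · exact hH.lt t h s (Finset.mem_of_mem_erase (hS'sub hs))
  · intro t ht
    rcases Finset.mem_insert.mp ht with rfl | h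
    · refine ⟨pat.1, ?_, ?_⟩
      · intro s hs
        exact congrArg Prod.fst (Finset.mem_filter.mp hs).2
      · intro t' ht' hlt
        rcases Finset.mem_insert.mp ht' with rfl | h'
        · exact absurd hlt (lt_irrefl _)
        · exact absurd hlt (lt_asymm (hH.lt t' h' t hxS))
    · obtain ⟨b, hb1, hb2⟩ := hH.col t h
      refine ⟨b, ?_, ?_⟩
      · intro s hs
        exact hb1 s (Finset.mem_of_mem_erase (hS'sub hs))
      · intro t' ht' hlt
        rcases Finset.mem_insert.mp ht' with rfl | h'
        · exact hb1 t' hxS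
        · exact hb2 t' h' hlt
  · intro t ht t' ht' hlt
    rcases Finset.mem_insert.mp ht with rfl | h
    · -- `t = x` cannot precede anything
      exfalso
      rcases Finset.mem_insert.mp ht' with rfl | h'
      · exact lt_irrefl _ hlt
      · exact lt_asymm hlt (hH.lt t' h' t hxS)
    · rcases Finset.mem_insert.mp ht' with rfl | h'
      · -- the new pair `(t, x)`
        have hlast : ∀ t'' ∈ insert t' T, ¬ toLex t' < toLex t'' := by
          intro t'' ht'' hlt''
          rcases Finset.mem_insert.mp ht'' with rfl | h''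
          · exact lt_irrefl _ hlt''
          · exact lt_asymm hlt'' (hH.lt t'' h'' t' hxS)
        by_cases hex : ∃ s ∈ S', t ∈ A s
        · obtain ⟨s0, hs0, hts0⟩ := hex
          refine ⟨1, Or.inl rfl, ?_, ?_⟩
          · intro s hs
            have : t ∈ A s := by rw [hAeq s hs s0 hs0]; exact hts0
            have := (Finset.mem_filter.mp this).2
            linarith
          · intro t'' ht'' hlt''
            exact absurd hlt'' (hlast t'' ht'')
        · push Not at hex
          refine ⟨-1, Or.inr rfl, ?_, ?_⟩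
          · intro s hs
            have h1 := hex s hs
            have h2 : ¬ 0 < orient t t' s := fun h3 => h1 (Finset.mem_filter.mpr ⟨h, h3⟩)
            have hsS : s ∈ S := Finset.mem_of_mem_erase (hS'sub hs)
            have h4 : orient t t' s ≠ 0 := hG t (hH.TP h) t' hxP s (hH.SP hsS)
              (ne_of_lex (hH.lt t h t' hxS)) (ne_of_lex (hH.lt t h s hsS))
              (ne_of_lex (hxlt s (hS'sub hs)))
            have h5 : orient t t' s < 0 := lt_of_le_of_ne (not_lt.mp h2) h4
            linarith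
          · intro t'' ht'' hlt''
            exact absurd hlt'' (hlast t'' ht'')
      · obtain ⟨σ, hσ, h1, h2⟩ := hH.ori t h t' h' hlt
        refine ⟨σ, hσ, ?_, ?_⟩
        · intro s hs
          exact h1 s (Finset.mem_of_mem_erase (hS'sub hs))
        · intro t'' ht'' hlt''
          rcases Finset.mem_insert.mp ht'' with rfl | h''
          · exact h1 t'' hxS
          · exact h2 t'' h'' hlt''

/-- Iterating the step. -/
theorem Hom.grow {χ : Sym2 (ℝ × ℝ) → Bool} {P : Finset (ℝ × ℝ)} (hG : Gen P) {L : ℕ} :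
    ∀ (k : ℕ) (T S : Finset (ℝ × ℝ)), Hom χ P T S → T.card + k = L →
      (2 * L + 1) ^ k ≤ S.card →
      ∃ T' S', Hom χ P T' S' ∧ T'.card = L ∧ S'.Nonempty := by
  intro k
  induction k with
  | zero =>
    intro T S hH hT hS
    refine ⟨T, S, hH, by omega, Finset.card_pos.mp ?_⟩
    rw [pow_zero] at hS
    omega
  | succ k ih =>
    intro T S hH hT hS
    have h1 : 2 * (T.card + 1) * (2 * L + 1) ^ k < S.card := by
      have h2 : 2 * (T.card + 1) ≤ 2 * L := by omega
      have h3 : 0 < (2 * L + 1) ^ k := by positivity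
      calc 2 * (T.card + 1) * (2 * L + 1) ^ k ≤ 2 * L * (2 * L + 1) ^ k :=
            Nat.mul_le_mul_right _ h2
        _ < (2 * L + 1) * (2 * L + 1) ^ k := by nlinarith
        _ = (2 * L + 1) ^ (k + 1) := by ring
        _ ≤ S.card := hS
    obtain ⟨T', S', hH', hT', hS'⟩ := hH.step hG h1
    exact ih T' S' hH' (by omega) hS'

/-- A chain lemma: if all pairs of `X` are in the transitive relation `r` or in `r'`, and `X` has
more than `m n` elements, there is an `r`-chain of size `m + 1` or an `r'`-chain of size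
`n + 1`. -/
theorem chain_or {α : Type*} [LinearOrder α] (r r' : α → α → Prop)
    (htr : ∀ a b c, a < b → b < c → r a b → r b c → r a c) (n : ℕ) :
    ∀ (m : ℕ) (X : Finset α),
      (∀ a ∈ X, ∀ b ∈ X, a < b → r a b ∨ r' a b) →
      m * n < X.card →
      (∃ C ⊆ X, C.card = m + 1 ∧ ∀ a ∈ C, ∀ b ∈ C, a < b → r a b) ∨
      (∃ C ⊆ X, C.card = n + 1 ∧ ∀ a ∈ C, ∀ b ∈ C, a < b → r' a b) := by
  classical
  intro m
  induction m with
  | zero =>
    intro X _ hX
    left
    obtain ⟨x, hx⟩ := Finset.card_pos.mp (by omega : 0 < X.card)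
    refine ⟨{x}, by simpa using hx, by simp, ?_⟩
    intro a ha b hb hab
    simp only [Finset.mem_singleton] at ha hb
    rw [ha, hb] at hab
    exact absurd hab (lt_irrefl _)
  | succ m ih =>
    intro X hXr hX
    set M := X.filter (fun x => ∀ t ∈ X, t < x → ¬ r t x) with hM
    have hMsub : M ⊆ X := Finset.filter_subset _ _
    by_cases hMc : n + 1 ≤ M.card
    · right
      obtain ⟨C, hCM, hCc⟩ := Finset.exists_subset_card_eq hMc
      refine ⟨C, hCM.trans hMsub, hCc, ?_⟩
      intro a ha b hb hab
      have haX := hMsub (hCM ha)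
      have hbX := hMsub (hCM hb)
      rcases hXr a haX b hbX hab with h | h
      · exact absurd h ((Finset.mem_filter.mp (hCM hb)).2 a haX hab)
      · exact h
    · have hc : m * n < (X \ M).card := by
        have h1 : (X \ M).card + M.card = X.card := Finset.card_sdiff_add_card_eq_card hMsub
        have h2 : (m + 1) * n = m * n + n := by ring
        omega
      rcases ih (X \ M) (fun a ha b hb hab => hXr a (Finset.mem_sdiff.mp ha).1 b
        (Finset.mem_sdiff.mp hb).1 hab) hc with h | h
      · left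
        obtain ⟨C, hCsub, hCc, hCr⟩ := h
        have hCne : C.Nonempty := Finset.card_pos.mp (by omega)
        set x := C.min' hCne with hx
        have hxC : x ∈ C := Finset.min'_mem _ _
        have hxX := Finset.mem_sdiff.mp (hCsub hxC)
        have : ∃ t ∈ X, t < x ∧ r t x := by
          by_contra hcon
          push Not at hcon
          exact hxX.2 (Finset.mem_filter.mpr ⟨hxX.1, hcon⟩)
        obtain ⟨t, htX, htx, hrt⟩ := this
        have hmin : ∀ c ∈ C, x ≤ c := fun c hc => Finset.min'_le _ _ hc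
        have htC : t ∉ C := fun h => absurd (hmin t h) (not_le.mpr htx)
        refine ⟨insert t C, ?_, ?_, ?_⟩
        · intro y hy
          rcases Finset.mem_insert.mp hy with rfl | hy
          · exact htX
          · exact (Finset.mem_sdiff.mp (hCsub hy)).1
        · rw [Finset.card_insert_of_notMem htC, hCc]
        · intro a ha b hb hab
          rcases Finset.mem_insert.mp ha with ha1 | ha1
          · rcases Finset.mem_insert.mp hb with hb1 | hb1
            · rw [ha1, hb1] at hab
              exact absurd hab (lt_irrefl _)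
            · rw [ha1]
              rcases (hmin b hb1).eq_or_lt with h | h
              · rw [← h]; exact hrt
              · exact htr _ _ _ htx h hrt (hCr _ hxC _ hb1 h)
          · rcases Finset.mem_insert.mp hb with hb1 | hb1
            · rw [hb1] at hab
              exact absurd (lt_of_lt_of_le htx (hmin a ha1)) (lt_asymm hab)
            · exact hCr _ ha1 _ hb1 hab
      · right
        obtain ⟨C, hCsub, hCc, hCr⟩ := h
        exact ⟨C, hCsub.trans Finset.sdiff_subset, hCc, hCr⟩

/-- The main Ramsey statement, in terms of orientations. -/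
theorem main (χ : Sym2 (ℝ × ℝ) → Bool) (P : Finset (ℝ × ℝ)) (hG : Gen P) (q : ℕ)
    (hP : (2 * (2 * (q * q) + 1) + 1) ^ (2 * (q * q) + 1) ≤ P.card) :
    ∃ K ⊆ P, K.card = q + 2 ∧ (∃ b : Bool, ∀ x ∈ K, ∀ y ∈ K, x ≠ y → χ s(x, y) = b) ∧
      ∃ σ : ℝ, ∀ x ∈ K, ∀ y ∈ K, ∀ z ∈ K, toLex x < toLex y → toLex y < toLex z →
        0 < σ * orient x y z := by
  classical
  have h0 : Hom χ P ∅ P :=
    ⟨by simp, by simp, by simp, by simp, by simp⟩
  obtain ⟨T, S, hH, hT, ⟨s0, hs0⟩⟩ := Hom.grow hG (2 * (q * q) + 1) ∅ P h0 (by simp) hP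
  -- the majority colour
  have hsplit : (T.filter (fun t => χ s(t, s0) = true)).card
      + (T.filter (fun t => ¬ χ s(t, s0) = true)).card = T.card :=
    Finset.card_filter_add_card_filter_not _
  have hmaj : ∃ b : Bool, q * q < (T.filter (fun t => χ s(t, s0) = b)).card := by
    by_cases h : q * q < (T.filter (fun t => χ s(t, s0) = true)).card
    · exact ⟨true, h⟩
    · refine ⟨false, ?_⟩
      have : (T.filter (fun t => ¬ χ s(t, s0) = true))
          = T.filter (fun t => χ s(t, s0) = false) := by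
        apply Finset.filter_congr
        intro t _
        simp
      rw [← this]
      omega
  obtain ⟨b, hb⟩ := hmaj
  -- transfer to the linear order
  let X : Finset (ℝ ×ₗ ℝ) := (T.filter (fun t => χ s(t, s0) = b)).map toLex.toEmbedding
  have hXmem : ∀ a : ℝ ×ₗ ℝ, a ∈ X ↔ ofLex a ∈ T ∧ χ s(ofLex a, s0) = b := by
    intro a
    simp only [X, Finset.mem_map, Finset.mem_filter, Equiv.coe_toEmbedding]
    constructor
    · rintro ⟨t, ht, rfl⟩
      simpa using ht
    · intro h
      exact ⟨ofLex a, h, by simp⟩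
  let r : ℝ ×ₗ ℝ → ℝ ×ₗ ℝ → Prop := fun a c =>
    a ∈ X ∧ c ∈ X ∧ 0 < orient (ofLex a) (ofLex c) s0
  let r' : ℝ ×ₗ ℝ → ℝ ×ₗ ℝ → Prop := fun a c => orient (ofLex a) (ofLex c) s0 < 0
  have hsign : ∀ a ∈ X, ∀ c ∈ X, a < c → ∀ z, (z ∈ T ∨ z ∈ S) → c < toLex z →
      (0 < orient (ofLex a) (ofLex c) s0 → 0 < orient (ofLex a) (ofLex c) z) ∧
      (orient (ofLex a) (ofLex c) s0 < 0 → orient (ofLex a) (ofLex c) z < 0) := by
    intro a ha c hc hac z hz hcz
    obtain ⟨σ, hσ, h1, h2⟩ := hH.ori (ofLex a) ((hXmem a).mp ha).1 (ofLex c)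
      ((hXmem c).mp hc).1 (by simpa using hac)
    have h3 := h1 s0 hs0
    have h4 : 0 < σ * orient (ofLex a) (ofLex c) z := by
      rcases hz with hz | hz
      · exact h2 z hz (by simpa using hcz)
      · exact h1 z hz
    rcases hσ with rfl | rfl
    · constructor
      · intro _; linarith
      · intro h; linarith
    · constructor
      · intro h; linarith
      · intro _; linarith
  have hXr : ∀ a ∈ X, ∀ c ∈ X, a < c → r a c ∨ r' a c := by
    intro a ha c hc hac
    have ha' := ((hXmem a).mp ha).1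
    have hc' := ((hXmem c).mp hc).1
    have hne : orient (ofLex a) (ofLex c) s0 ≠ 0 :=
      hG _ (hH.TP ha') _ (hH.TP hc') _ (hH.SP hs0)
        (fun e => (ne_of_lt hac) (ofLex.injective e))
        (ne_of_lex (hH.lt _ ha' _ hs0)) (ne_of_lex (hH.lt _ hc' _ hs0))
    rcases lt_or_gt_of_ne hne with h | h
    · exact Or.inr h
    · exact Or.inl ⟨ha, hc, h⟩
  have htr : ∀ a c d, a < c → c < d → r a c → r c d → r a d := by
    intro a c d hac hcd h1 h2
    have hd' := ((hXmem d).mp h2.2.1).1
    refine ⟨h1.1, h2.2.1, ?_⟩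
    have h3 := (hsign a h1.1 c h1.2.1 hac (ofLex d) (Or.inl hd') (by simpa using hcd)).1 h1.2.2
    exact orient_trans (by simpa using hac) (by simpa using hcd)
      (by simpa using hH.lt _ hd' _ hs0) h3 h2.2.2
  have hXc : q * q < X.card := by
    simp only [X, Finset.card_map]
    exact hb
  have hfin : ∀ C : Finset (ℝ ×ₗ ℝ), C ⊆ X → C.card = q + 1 → ∀ σ : ℝ,
      (∀ a ∈ C, ∀ c ∈ C, a < c → ∀ z, (z ∈ T ∨ z ∈ S) → c < toLex z →
        0 < σ * orient (ofLex a) (ofLex c) z) →
      ∃ K ⊆ P, K.card = q + 2 ∧ (∃ b : Bool, ∀ x ∈ K, ∀ y ∈ K, x ≠ y → χ s(x, y) = b) ∧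
      ∃ σ : ℝ, ∀ x ∈ K, ∀ y ∈ K, ∀ z ∈ K, toLex x < toLex y → toLex y < toLex z →
        0 < σ * orient x y z := by
    intro C hCX hCc σ hσ
    let K0 : Finset (ℝ × ℝ) := C.map ofLex.toEmbedding
    have hK0 : ∀ y : ℝ × ℝ, y ∈ K0 ↔ toLex y ∈ C := by
      intro y
      simp only [K0, Finset.mem_map, Equiv.coe_toEmbedding]
      constructor
      · rintro ⟨a, ha, rfl⟩
        simpa using ha
      · intro h
        exact ⟨toLex y, h, by simp⟩
    have hK0T : ∀ y ∈ K0, y ∈ T ∧ χ s(y, s0) = b := by
      intro y hy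
      have := (hXmem (toLex y)).mp (hCX ((hK0 y).mp hy))
      simpa using this
    have hs0K : s0 ∉ K0 := fun h => lt_irrefl _ (hH.lt s0 (hK0T s0 h).1 s0 hs0)
    refine ⟨insert s0 K0, ?_, ?_, ⟨b, ?_⟩, ⟨σ, ?_⟩⟩
    · intro y hy
      rcases Finset.mem_insert.mp hy with rfl | hy
      · exact hH.SP hs0
      · exact hH.TP (hK0T y hy).1
    · rw [Finset.card_insert_of_notMem hs0K, Finset.card_map, hCc]
    · -- colours
      have hord : ∀ x ∈ insert s0 K0, ∀ y ∈ insert s0 K0, toLex x < toLex y → χ s(x, y) = b := by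
        intro x hx y hy hlt
        rcases Finset.mem_insert.mp hx with rfl | hx
        · exfalso
          rcases Finset.mem_insert.mp hy with rfl | hy
          · exact lt_irrefl _ hlt
          · exact lt_asymm hlt (hH.lt y (hK0T y hy).1 x hs0)
        · obtain ⟨b', hb1, hb2⟩ := hH.col x (hK0T x hx).1
          have hbb : b' = b := by rw [← hb1 s0 hs0]; exact (hK0T x hx).2
          rcases Finset.mem_insert.mp hy with hy1 | hy1
          · rw [hy1]; exact (hK0T x hx).2
          · rw [hb2 y (hK0T y hy1).1 hlt, hbb]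
      intro x hx y hy hxy
      rcases lt_or_gt_of_ne (fun e => hxy (toLex.injective e) : toLex x ≠ toLex y) with h | h
      · exact hord x hx y hy h
      · rw [Sym2.eq_swap]; exact hord y hy x hx h
    · intro x hx y hy z hz hxy hyz
      have hzTS : z ∈ T ∨ z ∈ S := by
        rcases Finset.mem_insert.mp hz with rfl | hz
        · exact Or.inr hs0
        · exact Or.inl (hK0T z hz).1
      have hnot : ∀ w ∈ insert s0 K0, ∀ w' ∈ insert s0 K0, toLex w < toLex w' → w ∈ K0 := by
        intro w hw w' hw' hlt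
        rcases Finset.mem_insert.mp hw with rfl | hw
        · exfalso
          rcases Finset.mem_insert.mp hw' with rfl | hw'
          · exact lt_irrefl _ hlt
          · exact lt_asymm hlt (hH.lt w' (hK0T w' hw').1 w hs0)
        · exact hw
      have hxK := hnot x hx y hy hxy
      have hyK := hnot y hy z hz hyz
      have := hσ (toLex x) ((hK0 x).mp hxK) (toLex y) ((hK0 y).mp hyK) hxy z hzTS hyz
      simpa using this
  rcases chain_or r r' htr q q X hXr hXc with ⟨C, hCX, hCc, hCr⟩ | ⟨C, hCX, hCc, hCr⟩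
  · apply hfin C hCX hCc 1
    intro a ha c hc hac z hz hcz
    have h1 := hCr a ha c hc hac
    have h2 := (hsign a h1.1 c h1.2.1 hac z hz hcz).1 h1.2.2
    linarith
  · apply hfin C hCX hCc (-1)
    intro a ha c hc hac z hz hcz
    have h1 := hCr a ha c hc hac
    have h2 := (hsign a (hCX ha) c (hCX hc) hac z hz hcz).2 h1
    linarith

end Pool.Agent.H690CV
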